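import Mathlib

/-!
# KV/MOM: tools (Mathlib only)
-/

set_option autoImplicit false

namespace Pool.Agent.N490.KV

open MeasureTheory Finset
open scoped ENNReal

/-- Jensen for finite weighted sums -/
theorem jensen_finset {ι : Type*} (F : Finset ι) (w a : ι → ℝ≥0∞) {s : ℕ} (hs : 1 ≤ s) :
    (∑ i ∈ F, w i * a i) ^ s ≤ (∑ i ∈ F, w i) ^ (s - 1) * ∑ i ∈ F, w i * a i ^ s := by
  have hs' : (1 : ℝ) ≤ s := by exact_mod_cast hs
  have h0 := ENNReal.inner_le_weight_mul_Lp_of_nonneg F hs' w a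
  have h1 : (∑ i ∈ F, w i * a i) ^ (s : ℝ) ≤
      ((∑ i ∈ F, w i) ^ (1 - (s : ℝ)⁻¹) * (∑ i ∈ F, w i * a i ^ (s : ℝ)) ^ (s : ℝ)⁻¹) ^ (s : ℝ) :=
    ENNReal.rpow_le_rpow h0 (by linarith)
  rw [ENNReal.mul_rpow_of_nonneg _ _ (by linarith), ← ENNReal.rpow_mul, ← ENNReal.rpow_mul,
    inv_mul_cancel₀ (by linarith), ENNReal.rpow_one, ENNReal.rpow_natCast] at h1
  have h2 : (1 - (s : ℝ)⁻¹) * (s : ℝ) = ((s - 1 : ℕ) : ℝ) := by
    rw [Nat.cast_sub hs]
    field_simp
    simp
  rw [h2, ENNReal.rpow_natCast] at h1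
  simpa only [ENNReal.rpow_natCast] using h1

/-- Jensen for weighted series -/
theorem jensen {ι : Type*} (w a : ι → ℝ≥0∞) {s : ℕ} (hs : 1 ≤ s) :
    (∑' i, w i * a i) ^ s ≤ (∑' i, w i) ^ (s - 1) * ∑' i, w i * a i ^ s := by
  have h1 : Filter.Tendsto (fun F : Finset ι => (∑ i ∈ F, w i * a i) ^ s) Filter.atTop
      (nhds ((∑' i, w i * a i) ^ s)) :=
    ((ENNReal.continuous_pow s).tendsto _).comp (ENNReal.summable (f := fun i => w i * a i)).hasSum
  refine le_of_tendsto' h1 fun F => (jensen_finset F w a hs).trans ?_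
  gcongr
  · exact ENNReal.sum_le_tsum F
  · exact ENNReal.sum_le_tsum F

/-- a product of series -/
theorem tsum_pi_prod {n : ℕ} (f : Fin n → ℤ → ℝ≥0∞) :
    ∑' h : Fin n → ℤ, ∏ j, f j (h j) = ∏ j, ∑' k, f j k := by
  induction n with
  | zero =>
    rw [tsum_eq_single (fun i => i.elim0 : Fin 0 → ℤ)]
    · simp
    · intro h hh
      exact absurd (Subsingleton.elim _ _) hh
  | succ n ih =>
    rw [← (Fin.consEquiv fun _ : Fin (n + 1) => ℤ).tsum_eq]
    have h1 : ∀ p : ℤ × (Fin n → ℤ), ∏ j, f j ((Fin.consEquiv fun _ : Fin (n + 1) => ℤ) p j) =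
        f 0 p.1 * ∏ j : Fin n, f j.succ (p.2 j) := by
      intro p
      rw [Fin.prod_univ_succ]
      rfl
    simp_rw [h1]
    rw [ENNReal.tsum_prod (f := fun (a : ℤ) (b : Fin n → ℤ) => f 0 a * ∏ j : Fin n, f j.succ (b j))]
    simp_rw [ENNReal.tsum_mul_left]
    rw [ENNReal.tsum_mul_right, ih, Fin.prod_univ_succ]

/-- the sum of the weights -/
theorem qsum : ∃ K : ℝ, 0 < K ∧ ∀ b : ℝ, |b| ≤ 1 / 2 →
    ∑' h : ℤ, ENNReal.ofReal (if |b + h| ≤ 2 then 1 else 1 / (b + h) ^ 2) ≤ ENNReal.ofReal K := by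
  have hsum : Summable fun h : ℤ => (10 * (1 / (h : ℝ) ^ 2) + if h = 0 then (10 : ℝ) else 0) := by
    refine ((Real.summable_one_div_int_pow.2 (by norm_num)).mul_left 10).add ?_
    refine summable_of_hasFiniteSupport ?_
    refine (Set.finite_singleton (0 : ℤ)).subset fun h hh => ?_
    by_contra hne
    apply hh
    simp only [Set.mem_singleton_iff] at hne
    simp [hne]
  have hnn : ∀ h : ℤ, 0 ≤ (10 * (1 / (h : ℝ) ^ 2) + if h = 0 then (10 : ℝ) else 0) := by
    intro h
    split_ifs <;> positivity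
  refine ⟨∑' h : ℤ, (10 * (1 / (h : ℝ) ^ 2) + if h = 0 then (10 : ℝ) else 0), ?_, fun b hb => ?_⟩
  · refine hsum.tsum_pos hnn 0 ?_
    simp
  · rw [ENNReal.ofReal_tsum_of_nonneg hnn hsum]
    refine ENNReal.tsum_le_tsum fun h => ENNReal.ofReal_le_ofReal ?_
    rw [abs_le] at hb
    by_cases h0 : h = 0
    · subst h0
      have h1 : |b + ((0 : ℤ) : ℝ)| ≤ 2 := by
        rw [abs_le]
        push_cast
        constructor <;> linarith
      rw [if_pos h1]
      simp only [if_true]
      have : (0 : ℝ) ≤ 10 * (1 / ((0 : ℤ) : ℝ) ^ 2) := by positivity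
      linarith
    · rw [if_neg h0, add_zero]
      have h2 : (1 : ℝ) ≤ (h : ℝ) ^ 2 := by
        have : (1 : ℤ) ≤ h ^ 2 := by
          have := Int.one_le_abs h0
          nlinarith [sq_abs h]
        exact_mod_cast this
      rw [mul_one_div]
      split_ifs with h3
      · rw [le_div_iff₀ (by linarith)]
        rw [abs_le] at h3
        nlinarith [sq_nonneg ((h : ℝ))]
      · have h4 : (2 : ℝ) ^ 2 < (b + h) ^ 2 := by
          rw [sq_lt_sq, abs_of_pos (by norm_num : (0 : ℝ) < 2)]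
          exact not_le.1 h3
        rw [div_le_div_iff₀ (by linarith) (by linarith)]
        nlinarith [sq_nonneg (b + h + b), sq_nonneg (b + h - b), sq_nonneg (h : ℝ)]

/-- unfolding -/
theorem unfold_le {n : ℕ} {A : Set ℝ} (hA : MeasurableSet A) {η : ℝ} (hη : η ≤ 1 / 2)
    (hA1 : ∀ b ∈ A, -(1 / 2) < b ∧ b ≤ 1 / 2 ∧ η ≤ |b|) (g : (Fin n → ℝ) → ℝ≥0∞) (hg : Measurable g) :
    ∑' h : Fin n → ℤ, ∫⁻ b in Set.univ.pi fun _ => A, g (fun j => b j + h j) ≤
      ∫⁻ γ : Fin n → ℝ, {γ : Fin n → ℝ | ∀ j, η ≤ |γ j|}.indicator g γ := by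
  have hAp : MeasurableSet (Set.univ.pi fun _ : Fin n => A) := MeasurableSet.univ_pi fun _ => hA
  have h1 : ∀ h : Fin n → ℤ, ∫⁻ b in Set.univ.pi fun _ => A, g (fun j => b j + h j) =
      ∫⁻ γ : Fin n → ℝ, (Set.univ.pi fun _ : Fin n => A).indicator 1 (γ - fun j => (h j : ℝ)) * g γ := by
    intro h
    rw [← lintegral_indicator hAp]
    rw [← lintegral_add_right_eq_self (μ := (volume : Measure (Fin n → ℝ)))
      (fun γ => (Set.univ.pi fun _ : Fin n => A).indicator 1 (γ - fun j => (h j : ℝ)) * g γ) (fun j => (h j : ℝ))]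
    refine lintegral_congr fun b => ?_
    rw [add_sub_cancel_right]
    by_cases hb : b ∈ Set.univ.pi fun _ : Fin n => A
    · rw [Set.indicator_of_mem hb, Set.indicator_of_mem hb, Pi.one_apply, one_mul]
      rfl
    · rw [Set.indicator_of_notMem hb, Set.indicator_of_notMem hb, zero_mul]
  simp_rw [h1]
  rw [← lintegral_tsum]
  · refine lintegral_mono fun γ => ?_
    simp only
    rw [ENNReal.tsum_mul_right]
    by_cases hex : ∃ h0 : Fin n → ℤ, (γ - fun j => (h0 j : ℝ)) ∈ Set.univ.pi fun _ : Fin n => A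
    · obtain ⟨h0, hh0⟩ := hex
      have hmem : γ ∈ {γ : Fin n → ℝ | ∀ j, η ≤ |γ j|} := by
        intro j
        have h2 := hA1 _ (hh0 j (Set.mem_univ j))
        simp only [Pi.sub_apply] at h2
        by_cases h3 : h0 j = 0
        · rw [h3] at h2
          simpa using h2.2.2
        · refine hη.trans ?_
          rcases lt_or_gt_of_ne h3 with h4 | h4
          · have h5 : ((h0 j : ℤ) : ℝ) ≤ -1 := by exact_mod_cast (by omega : h0 j ≤ -1)
            rw [le_abs]
            right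
            linarith
          · have h5 : (1 : ℝ) ≤ ((h0 j : ℤ) : ℝ) := by exact_mod_cast (by omega : 1 ≤ h0 j)
            rw [le_abs]
            left
            linarith
      rw [Set.indicator_of_mem hmem, tsum_eq_single h0]
      · rw [Set.indicator_of_mem hh0, Pi.one_apply, one_mul]
      · intro h hne
        rw [Set.indicator_of_notMem]
        intro hmem'
        apply hne
        funext j
        have h2 := hA1 _ (hh0 j (Set.mem_univ j))
        have h3 := hA1 _ (hmem' j (Set.mem_univ j))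
        simp only [Pi.sub_apply] at h2 h3
        have h4 : |((h j - h0 j : ℤ) : ℝ)| < 1 := by
          push_cast
          rw [abs_lt]
          constructor <;> linarith
        have h5 : |h j - h0 j| < 1 := by exact_mod_cast h4
        have h6 := Int.abs_lt_one_iff.1 h5
        omega
    · have : ∑' h : Fin n → ℤ, (Set.univ.pi fun _ : Fin n => A).indicator (1 : (Fin n → ℝ) → ℝ≥0∞)
          (γ - fun j => (h j : ℝ)) = 0 := by
        rw [ENNReal.tsum_eq_zero]
        intro h
        refine Set.indicator_of_notMem (fun hh => hex ⟨h, hh⟩) _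
      rw [this, zero_mul]
      exact zero_le
  · intro h
    refine (Measurable.mul ?_ hg).aemeasurable
    exact (measurable_one.indicator hAp).comp (measurable_id.sub_const _)

end Pool.Agent.N490.KV
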