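import Mathlib

/-!
# KV/GREEDY: many tuples of rows with a large minor (Mathlib only)
-/

set_option autoImplicit false

namespace Pool.Agent.N490.KV

open Finset

/-- the minor -/
noncomputable def mnr (k : ℕ) {g t : ℕ} (r : Fin t → Fin g → ℕ) (c : Fin t → Fin g) : ℝ :=
  (Matrix.of fun i j => ((r i (c j) : ℝ)) ^ k).det

theorem mnr_cons (k : ℕ) {g t : ℕ} (r : Fin t → Fin g → ℕ) (z : Fin g → ℕ) (c : Fin t → Fin g) (a : Fin g) :
    mnr k (Fin.cons z r : Fin (t + 1) → Fin g → ℕ) (Fin.cons a c) =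
      (z a : ℝ) ^ k * mnr k r c + ∑ j : Fin t, (-1 : ℝ) ^ (j.1 + 1) * (z (c j) : ℝ) ^ k *
        mnr k r (fun i => (Fin.cons a c : Fin (t + 1) → Fin g) (j.succ.succAbove i)) := by
  unfold mnr
  rw [Matrix.det_succ_row_zero, Fin.sum_univ_succ]
  congr 1
  simp only [Fin.val_zero, pow_zero, Matrix.of_apply, Fin.cons_zero, one_mul]
  congr 1

theorem mnr_diff (k : ℕ) {g t : ℕ} (r : Fin t → Fin g → ℕ) (z z' : Fin g → ℕ) (c : Fin t → Fin g) (a : Fin g)
    (h : ∀ j, z (c j) = z' (c j)) :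
    mnr k (Fin.cons z r : Fin (t + 1) → Fin g → ℕ) (Fin.cons a c) -
      mnr k (Fin.cons z' r : Fin (t + 1) → Fin g → ℕ) (Fin.cons a c) =
      ((z a : ℝ) ^ k - (z' a : ℝ) ^ k) * mnr k r c := by
  rw [mnr_cons, mnr_cons]
  have : ∑ j : Fin t, (-1 : ℝ) ^ (j.1 + 1) * (z (c j) : ℝ) ^ k *
        mnr k r (fun i => (Fin.cons a c : Fin (t + 1) → Fin g) (j.succ.succAbove i)) =
      ∑ j : Fin t, (-1 : ℝ) ^ (j.1 + 1) * (z' (c j) : ℝ) ^ k *
        mnr k r (fun i => (Fin.cons a c : Fin (t + 1) → Fin g) (j.succ.succAbove i)) :=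
    Finset.sum_congr rfl fun j _ => by rw [h j]
  rw [this]
  ring

theorem pow_gap {X k m n : ℕ} (hk : 2 ≤ k) (hX : X ≤ m) (h : m < n) :
    2 * (X : ℝ) ^ (k - 1) ≤ (n : ℝ) ^ k - (m : ℝ) ^ k := by
  obtain ⟨j, rfl⟩ := Nat.exists_eq_add_of_le hk
  have h1 : m ^ (j + 1) + m ^ j ≤ n ^ (j + 1) := by
    calc m ^ (j + 1) + m ^ j = (m + 1) * m ^ j := by ring
      _ ≤ n * n ^ j := Nat.mul_le_mul h (Nat.pow_le_pow_left h.le j)
      _ = n ^ (j + 1) := by ring
  have h2 : m ^ (j + 2) + 2 * m ^ (j + 1) ≤ n ^ (j + 2) := by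
    calc m ^ (j + 2) + 2 * m ^ (j + 1) = m * (m ^ (j + 1) + m ^ j) + m ^ (j + 1) := by ring
      _ ≤ m * n ^ (j + 1) + n ^ (j + 1) := by
        have : m ^ (j + 1) ≤ n ^ (j + 1) := Nat.pow_le_pow_left h.le _
        gcongr
      _ = (m + 1) * n ^ (j + 1) := by ring
      _ ≤ n * n ^ (j + 1) := Nat.mul_le_mul_right _ h
      _ = n ^ (j + 2) := by ring
  have h3 : X ^ (j + 1) ≤ m ^ (j + 1) := Nat.pow_le_pow_left hX _
  have h4 : m ^ (j + 2) + 2 * X ^ (j + 1) ≤ n ^ (j + 2) := by omega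
  have h5 : ((m ^ (j + 2) + 2 * X ^ (j + 1) : ℕ) : ℝ) ≤ ((n ^ (j + 2) : ℕ) : ℝ) := Nat.cast_le.2 h4
  push_cast at h5
  rw [show 2 + j - 1 = j + 1 by omega, show 2 + j = j + 2 by omega]
  linarith

open Classical in
/-- there are few bad rows -/
theorem bad_card {g k X t : ℕ} {Z : Finset (Fin g → ℕ)} (hX : 1 ≤ X) (hk : 2 ≤ k)
    (hZ : ∀ z ∈ Z, ∀ a, X ≤ z a ∧ z a ≤ 2 * X) (r : Fin t → Fin g → ℕ) (c : Fin t → Fin g)
    (hc : (X : ℝ) ^ (t * (k - 1)) ≤ |mnr k r c|) :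
    (Z.filter fun z => ∀ a, a ∉ Set.range c →
      |mnr k (Fin.cons z r : Fin (t + 1) → Fin g → ℕ) (Fin.cons a c)| < (X : ℝ) ^ ((t + 1) * (k - 1))).card ≤
      (X + 1) ^ t := by
  have hX0 : (0 : ℝ) < X := by exact_mod_cast hX
  have hinj : Set.InjOn (fun (z : Fin g → ℕ) (j : Fin t) => z (c j))
      (Z.filter fun z => ∀ a, a ∉ Set.range c →
      |mnr k (Fin.cons z r : Fin (t + 1) → Fin g → ℕ) (Fin.cons a c)| < (X : ℝ) ^ ((t + 1) * (k - 1))) := by
    intro z hz z' hz' hzz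
    rw [Finset.mem_coe, Finset.mem_filter] at hz hz'
    have h0 : ∀ j, z (c j) = z' (c j) := fun j => congrFun hzz j
    funext a
    by_cases ha : a ∈ Set.range c
    · obtain ⟨j, rfl⟩ := ha
      exact h0 j
    · have h1 := hz.2 a ha
      have h2 := hz'.2 a ha
      have h3 := mnr_diff k r z z' c a h0
      have h4 : |((z a : ℝ) ^ k - (z' a : ℝ) ^ k) * mnr k r c| < 2 * (X : ℝ) ^ ((t + 1) * (k - 1)) := by
        rw [← h3]
        calc _ ≤ |mnr k (Fin.cons z r : Fin (t + 1) → Fin g → ℕ) (Fin.cons a c)| +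
            |mnr k (Fin.cons z' r : Fin (t + 1) → Fin g → ℕ) (Fin.cons a c)| := abs_sub _ _
          _ < _ := by linarith
      rw [abs_mul] at h4
      have h5 : (X : ℝ) ^ ((t + 1) * (k - 1)) = (X : ℝ) ^ (k - 1) * (X : ℝ) ^ (t * (k - 1)) := by
        rw [← pow_add]
        congr 1
        ring
      have hΔ : 0 < |mnr k r c| := lt_of_lt_of_le (by positivity) hc
      have h6 : |(z a : ℝ) ^ k - (z' a : ℝ) ^ k| * |mnr k r c| < (2 * (X : ℝ) ^ (k - 1)) * |mnr k r c| := by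
        refine lt_of_lt_of_le h4 ?_
        rw [h5]
        have : (X : ℝ) ^ (k - 1) * (X : ℝ) ^ (t * (k - 1)) ≤ (X : ℝ) ^ (k - 1) * |mnr k r c| :=
          mul_le_mul_of_nonneg_left hc (by positivity)
        linarith
      have h7 : |(z a : ℝ) ^ k - (z' a : ℝ) ^ k| < 2 * (X : ℝ) ^ (k - 1) := lt_of_mul_lt_mul_right h6 hΔ.le
      rcases lt_trichotomy (z a) (z' a) with h8 | h8 | h8
      · have := pow_gap hk (hZ z hz.1 a).1 h8
        have h9 := (abs_lt.1 h7).1
        linarith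
      · exact h8
      · have := pow_gap hk (hZ z' hz'.1 a).1 h8
        have h9 := (abs_lt.1 h7).2
        linarith
  have hmaps : Set.MapsTo (fun (z : Fin g → ℕ) (j : Fin t) => z (c j))
      (Z.filter fun z => ∀ a, a ∉ Set.range c →
      |mnr k (Fin.cons z r : Fin (t + 1) → Fin g → ℕ) (Fin.cons a c)| < (X : ℝ) ^ ((t + 1) * (k - 1)))
      (Fintype.piFinset fun _ : Fin t => Finset.Icc X (2 * X)) := by
    intro z hz
    rw [Finset.mem_coe, Finset.mem_filter] at hz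
    rw [Finset.mem_coe, Fintype.mem_piFinset]
    intro j
    rw [Finset.mem_Icc]
    exact hZ z hz.1 _
  refine (Finset.card_le_card_of_injOn _ hmaps hinj).trans ?_
  rw [Fintype.card_piFinset]
  simp only [Nat.card_Icc, Finset.prod_const, Finset.card_univ, Fintype.card_fin]
  rw [show 2 * X + 1 - X = X + 1 by omega]

/-- a good tuple -/
def Good (k X : ℕ) {g t : ℕ} (r : Fin t → Fin g → ℕ) : Prop :=
  ∃ c : Fin t → Fin g, (X : ℝ) ^ (t * (k - 1)) ≤ |mnr k r c|

open Classical in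
theorem ext_card {g k X t : ℕ} {Z : Finset (Fin g → ℕ)} (hX : 1 ≤ X) (hk : 2 ≤ k)
    (hZ : ∀ z ∈ Z, ∀ a, X ≤ z a ∧ z a ≤ 2 * X) (hcard : 2 * (X + 1) ^ t ≤ Z.card) (r : Fin t → Fin g → ℕ)
    (hr : Good k X r) :
    Z.card ≤ 2 * (Z.filter fun z => Good k X (Fin.cons z r : Fin (t + 1) → Fin g → ℕ)).card := by
  obtain ⟨c, hc⟩ := hr
  have h1 := bad_card hX hk hZ r c hc
  have h2 : (Z.filter fun z => ¬ ∀ a, a ∉ Set.range c →
      |mnr k (Fin.cons z r : Fin (t + 1) → Fin g → ℕ) (Fin.cons a c)| < (X : ℝ) ^ ((t + 1) * (k - 1))).card ≤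
      (Z.filter fun z => Good k X (Fin.cons z r : Fin (t + 1) → Fin g → ℕ)).card := by
    refine Finset.card_le_card fun z hz => ?_
    rw [Finset.mem_filter] at hz ⊢
    refine ⟨hz.1, ?_⟩
    have := hz.2
    push Not at this
    obtain ⟨a, _, ha⟩ := this
    exact ⟨_, ha⟩
  have h3 := Finset.card_filter_add_card_filter_not (s := Z) (fun z => ∀ a, a ∉ Set.range c →
      |mnr k (Fin.cons z r : Fin (t + 1) → Fin g → ℕ) (Fin.cons a c)| < (X : ℝ) ^ ((t + 1) * (k - 1)))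
  omega

open Classical in
theorem main {g k X : ℕ} {Z : Finset (Fin g → ℕ)} (hX : 1 ≤ X) (hk : 2 ≤ k)
    (hZ : ∀ z ∈ Z, ∀ a, X ≤ z a ∧ z a ≤ 2 * X) (t : ℕ) (hcard : 2 * (X + 1) ^ (t - 1) ≤ Z.card) :
    ((Z.card : ℝ) / 2) ^ t ≤ ((Fintype.piFinset fun _ : Fin t => Z).filter fun r => Good k X r).card := by
  induction t with
  | zero =>
    rw [pow_zero, Nat.one_le_cast, Nat.one_le_iff_ne_zero, Finset.card_ne_zero]
    refine ⟨Fin.elim0, ?_⟩
    rw [Finset.mem_filter, Fintype.mem_piFinset]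
    refine ⟨fun i => i.elim0, Fin.elim0, ?_⟩
    unfold mnr
    rw [Matrix.det_isEmpty]
    simp
  | succ t ih =>
    have hcard' : 2 * (X + 1) ^ (t - 1) ≤ Z.card := by
      refine le_trans ?_ hcard
      have : (X + 1) ^ (t - 1) ≤ (X + 1) ^ (t + 1 - 1) := Nat.pow_le_pow_right (by omega) (by omega)
      omega
    have hcard'' : 2 * (X + 1) ^ t ≤ Z.card := by simpa using hcard
    have h1 := ih hcard'
    have h2 : (((Fintype.piFinset fun _ : Fin t => Z).filter fun r => Good k X r).sigma fun r =>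
        Z.filter fun z => Good k X (Fin.cons z r : Fin (t + 1) → Fin g → ℕ)).card ≤
        ((Fintype.piFinset fun _ : Fin (t + 1) => Z).filter fun r => Good k X r).card := by
      refine Finset.card_le_card_of_injOn (fun p => (Fin.cons p.2 p.1 : Fin (t + 1) → Fin g → ℕ)) ?_ ?_
      · rintro ⟨r, z⟩ hp
        rw [Finset.mem_coe, Finset.mem_sigma, Finset.mem_filter, Finset.mem_filter, Fintype.mem_piFinset] at hp
        rw [Finset.mem_coe, Finset.mem_filter, Fintype.mem_piFinset]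
        refine ⟨fun i => ?_, hp.2.2⟩
        refine Fin.cases ?_ (fun j => ?_) i
        · exact hp.2.1
        · exact hp.1.1 j
      · rintro ⟨r, z⟩ _ ⟨r', z'⟩ _ hh
        have e1 : z = z' := by simpa using congrFun hh 0
        have e2 : r = r' := by
          funext j
          simpa using congrFun hh j.succ
        subst e1
        subst e2
        rfl
    rw [Finset.card_sigma] at h2
    have h3 : ((Fintype.piFinset fun _ : Fin t => Z).filter fun r => Good k X r).card * Z.card ≤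
        2 * ∑ r ∈ (Fintype.piFinset fun _ : Fin t => Z).filter fun r => Good k X r,
          (Z.filter fun z => Good k X (Fin.cons z r : Fin (t + 1) → Fin g → ℕ)).card := by
      rw [Finset.mul_sum, ← smul_eq_mul]
      refine Finset.card_nsmul_le_sum _ _ _ fun r hr => ?_
      exact ext_card hX hk hZ hcard'' r (Finset.mem_filter.1 hr).2
    have h4 : ((((Fintype.piFinset fun _ : Fin t => Z).filter fun r => Good k X r).card : ℝ) * Z.card) ≤
        2 * (((Fintype.piFinset fun _ : Fin (t + 1) => Z).filter fun r => Good k X r).card : ℝ) := by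
      exact_mod_cast h3.trans (Nat.mul_le_mul_left 2 h2)
    rw [pow_succ]
    calc ((Z.card : ℝ) / 2) ^ t * ((Z.card : ℝ) / 2)
        ≤ (((Fintype.piFinset fun _ : Fin t => Z).filter fun r => Good k X r).card : ℝ) * ((Z.card : ℝ) / 2) :=
          mul_le_mul_of_nonneg_right h1 (by positivity)
      _ ≤ _ := by linarith

end Pool.Agent.N490.KV
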