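import Mathlib
import Pool.Agent.N604.MW.Stm4
import Pool.Agent.N490.KV.GreedyPure

/-!
# KV/GREEDY: many tuples of rows with a large minor
-/

set_option autoImplicit false

namespace Pool.Agent.N490.KV

open Finset Pool.Agent.N604.MW

open Classical in
theorem greedy : S_GREEDY := by
  intro g k X ρ Z hX hk hρ hρg hZ hcard
  have h2 : 2 * (X + 1) ^ (ρ - 1) ≤ Z.card := by
    refine le_trans (Nat.mul_le_mul_right _ ?_) hcard
    calc 2 = 2 ^ 1 := by norm_num
      _ ≤ 2 ^ (g + 1) := Nat.pow_le_pow_right (by norm_num) (by omega)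
  refine ⟨(Fintype.piFinset fun _ : Fin ρ => Z).filter fun r => Good k X r, main hX hk hZ ρ h2, fun r hr => ?_⟩
  rw [Finset.mem_filter, Fintype.mem_piFinset] at hr
  exact hr

end Pool.Agent.N490.KV
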