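import Mathlib
import Pool.Agent.N604.MW.Stm4
import Pool.Agent.N604.MW.KMeas
import Pool.Agent.N490.KV.MomPure

/-!
# KV/MOM: moments of the minor arc contribution
-/

set_option autoImplicit false

namespace Pool.Agent.N490.KV

open MeasureTheory Finset Pool.Agent.N604.MW
open scoped ENNReal

section

variable (s k : ℕ) (F : Fin s → ℕ → ℝ) (X : ℕ) (N : ℤ)

/-- the function under the integral -/
noncomputable def ff (θ : Fin s → Fin k → ℝ) (β : ℝ) : ℂ :=
  (∏ i, TQ k (F i) X (θ i) β) * e (-(β * N))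

theorem ff_measurable : Measurable fun p : (Fin s → Fin k → ℝ) × ℝ => ff s k F X N p.1 p.2 := by
  unfold ff
  refine (prod_TQ_measurable s k F X).mul (e_continuous.measurable.comp ?_)
  exact (measurable_snd.mul_const _).neg

theorem ff_norm_le (hX : 1 ≤ X) (θ : Fin s → Fin k → ℝ) (β : ℝ) :
    ‖ff s k F X N θ β‖ ≤ ((X + 1) * Real.log (2 * X)) ^ s := by
  unfold ff
  rw [norm_mul, e_norm, mul_one, norm_prod]
  refine (Finset.prod_le_prod (fun i _ => norm_nonneg _) fun i _ => TQ_norm_le k (F i) X hX (θ i) β).trans ?_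
  simp

theorem EQ_eq (η : ℝ) (θ : Fin s → Fin k → ℝ) :
    EQ s k F X η θ N = ∫ β in Arc η (1 / 2), ff s k F X N θ β := rfl

theorem ff_neg (θ : Fin s → Fin k → ℝ) (β : ℝ) :
    ff s k F X N θ (-β) = (starRingEnd ℂ) (ff s k F X N θ β) := by
  unfold ff
  rw [map_mul, map_prod, ← e_neg]
  congr 1
  · exact Finset.prod_congr rfl fun i _ => TQ_neg k (F i) X (θ i) β
  · congr 1
    ring

theorem EQ_conj (η : ℝ) (θ : Fin s → Fin k → ℝ) :
    (starRingEnd ℂ) (EQ s k F X η θ N) = EQ s k F X η θ N := by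
  rw [EQ_eq, ← integral_conj, ← integral_indicator (measurableSet_Arc _ _),
    ← integral_indicator (measurableSet_Arc _ _),
    ← integral_neg_eq_self (fun β => (Arc η (1 / 2)).indicator (fun β => ff s k F X N θ β) β)]
  refine integral_congr_ae (ae_of_all _ fun β => ?_)
  have h1 : -β ∈ Arc η (1 / 2) ↔ β ∈ Arc η (1 / 2) := by simp [Arc]
  by_cases hb : β ∈ Arc η (1 / 2)
  · simp only [Set.indicator_of_mem hb, Set.indicator_of_mem (h1.2 hb)]
    exact (ff_neg s k F X N θ β).symm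
  · simp only [Set.indicator_of_notMem hb, Set.indicator_of_notMem (fun h => hb (h1.1 h))]

theorem EQ_pow (η : ℝ) (θ : Fin s → Fin k → ℝ) (n : ℕ) :
    EQ s k F X η θ N ^ n = ∫ b : Fin n → ℝ, ∏ j, ff s k F X N θ (b j)
      ∂(Measure.pi fun _ : Fin n => volume.restrict (Arc η (1 / 2))) := by
  rw [integral_fintype_prod_eq_pow (fun β => ff s k F X N θ β), Fintype.card_fin, EQ_eq]

theorem EQ_norm_pow (η : ℝ) (θ : Fin s → Fin k → ℝ) (m : ℕ) :
    ((‖EQ s k F X η θ N‖ ^ (2 * m) : ℝ) : ℂ) = EQ s k F X η θ N ^ (2 * m) := by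
  obtain ⟨z, hz⟩ : ∃ z, z = EQ s k F X η θ N := ⟨_, rfl⟩
  have h1 : (starRingEnd ℂ) z = z := by
    rw [hz]
    exact EQ_conj s k F X N η θ
  rw [← hz]
  have h2 : ((z.re : ℝ) : ℂ) = z := Complex.conj_eq_iff_re.1 h1
  rw [← h2, Complex.norm_real, Real.norm_eq_abs, pow_mul, sq_abs, ← pow_mul]
  push_cast
  rfl

/-- the expectation of the product -/
theorem inner (n : ℕ) (b : Fin n → ℝ) :
    ∫ θ, ∏ j, ff s k F X N θ (b j) ∂(GMs s k) =
      (∏ j, e (-(b j * N))) * ∏ i, ∫ θ, ∏ j, TQ k (F i) X θ (b j) ∂(GM k) := by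
  have h1 : ∀ θ : Fin s → Fin k → ℝ, ∏ j, ff s k F X N θ (b j) =
      (∏ j, e (-(b j * N))) * ∏ i, ∏ j, TQ k (F i) X (θ i) (b j) := by
    intro θ
    unfold ff
    rw [Finset.prod_mul_distrib, mul_comm, Finset.prod_comm]
  simp_rw [h1]
  rw [integral_const_mul]
  congr 1
  exact integral_fintype_prod_eq_prod (fun (i : Fin s) (θ : Fin k → ℝ) => ∏ j, TQ k (F i) X θ (b j))

theorem norm_inner (h : S_PHI) (hX : 1 ≤ X) (n : ℕ) (b : Fin n → ℝ) :
    ‖∫ θ, ∏ j, ff s k F X N θ (b j) ∂(GMs s k)‖ ≤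
      (Real.log (2 * X) ^ n * ∑' h : Fin n → ℤ, (∏ j, qq (b j + h j)) * GS n k X (fun j => b j + h j)) ^ s := by
  rw [inner, norm_mul, norm_prod, norm_prod]
  have h1 : ∏ j, ‖e (-(b j * N))‖ = 1 := Finset.prod_eq_one fun j _ => e_norm _
  rw [h1, one_mul]
  refine (Finset.prod_le_prod (fun i _ => norm_nonneg _) fun i _ => (h n k X (F i) b hX).2).trans ?_
  simp

end

/-- the bound for the weights and the Jensen inequality -/
theorem jens (h : S_PHI) : ∃ K : ℝ, 0 < K ∧ ∀ (s k X n : ℕ) (b : Fin n → ℝ), 1 ≤ s → 1 ≤ X → (∀ j, |b j| ≤ 1 / 2) →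
    ENNReal.ofReal ((∑' h : Fin n → ℤ, (∏ j, qq (b j + h j)) * GS n k X (fun j => b j + h j)) ^ s) ≤
      ENNReal.ofReal K ^ (n * (s - 1)) *
        ∑' h : Fin n → ℤ, ENNReal.ofReal ((∏ j, qq (b j + h j)) * GS n k X (fun j => b j + h j) ^ s) := by
  obtain ⟨K, hK, hKb⟩ := qsum
  refine ⟨K, hK, fun s k X n b hs hX hb => ?_⟩
  have hq : ∀ h : Fin n → ℤ, 0 ≤ ∏ j, qq (b j + h j) := fun h => Finset.prod_nonneg fun j _ => qq_nonneg _
  have hnn : ∀ h : Fin n → ℤ, 0 ≤ (∏ j, qq (b j + h j)) * GS n k X (fun j => b j + h j) := fun h =>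
    mul_nonneg (hq h) (GS_nonneg _ _ _ _)
  rw [ENNReal.ofReal_pow (tsum_nonneg hnn), ENNReal.ofReal_tsum_of_nonneg hnn (h n k X (fun _ => 0) b hX).1]
  have h1 : ∀ h : Fin n → ℤ, ENNReal.ofReal ((∏ j, qq (b j + h j)) * GS n k X (fun j => b j + h j)) =
      (∏ j, ENNReal.ofReal (qq (b j + h j))) * ENNReal.ofReal (GS n k X (fun j => b j + h j)) := by
    intro h
    rw [ENNReal.ofReal_mul (hq h), ENNReal.ofReal_prod_of_nonneg fun j _ => qq_nonneg _]
  have h2 : ∀ h : Fin n → ℤ, ENNReal.ofReal ((∏ j, qq (b j + h j)) * GS n k X (fun j => b j + h j) ^ s) =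
      (∏ j, ENNReal.ofReal (qq (b j + h j))) * ENNReal.ofReal (GS n k X (fun j => b j + h j)) ^ s := by
    intro h
    rw [ENNReal.ofReal_mul (hq h), ENNReal.ofReal_prod_of_nonneg fun j _ => qq_nonneg _,
      ENNReal.ofReal_pow (GS_nonneg _ _ _ _)]
  simp_rw [h1, h2]
  refine (jensen _ _ hs).trans (mul_le_mul_left ?_ _)
  rw [pow_mul]
  refine pow_le_pow_left' ?_ _
  rw [tsum_pi_prod (fun (j : Fin n) (h : ℤ) => ENNReal.ofReal (qq (b j + h)))]
  refine (Finset.prod_le_prod' fun j _ => ?_ : _ ≤ ∏ _j : Fin n, ENNReal.ofReal K).trans ?_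
  · exact hKb (b j) (hb j)
  · simp

theorem mom (h : S_PHI) : S_MOM := by
  intro s m hs hm
  obtain ⟨K, hK, hKb⟩ := jens h
  refine ⟨K ^ (2 * m * (s - 1)), by positivity, fun k X F η N hX hη0 hη => ?_⟩
  have hX1 : 1 ≤ X := by omega
  have hX1' : (1 : ℝ) ≤ X := by exact_mod_cast hX1
  have hL : 0 ≤ Real.log (2 * X) := Real.log_nonneg (by linarith)
  obtain ⟨n, hn⟩ : ∃ n, n = 2 * m := ⟨_, rfl⟩
  have hfin : IsFiniteMeasure (volume.restrict (Arc η (1 / 2))) :=
    ⟨by rw [Measure.restrict_apply_univ]; exact (isCompact_Arc _ _).measure_lt_top⟩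
  -- the moment
  have hB : ∀ (θ : Fin s → Fin k → ℝ) (b : Fin n → ℝ), ‖∏ j, ff s k F X N θ (b j)‖ ≤
      (((X + 1) * Real.log (2 * X)) ^ s) ^ n := by
    intro θ b
    rw [norm_prod]
    refine (Finset.prod_le_prod (fun j _ => norm_nonneg _) fun j _ => ff_norm_le s k F X N hX1 θ (b j)).trans ?_
    simp
  have hmeas : Measurable fun p : (Fin s → Fin k → ℝ) × (Fin n → ℝ) => ∏ j, ff s k F X N p.1 (p.2 j) := by
    refine Finset.measurable_prod _ fun j _ => ?_
    exact Measurable.comp (g := fun p : (Fin s → Fin k → ℝ) × ℝ => ff s k F X N p.1 p.2)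
      (f := fun p : (Fin s → Fin k → ℝ) × (Fin n → ℝ) => (p.1, p.2 j)) (ff_measurable s k F X N) (by fun_prop)
  have hint : Integrable (Function.uncurry fun (θ : Fin s → Fin k → ℝ) (b : Fin n → ℝ) =>
      ∏ j, ff s k F X N θ (b j)) ((GMs s k).prod (Measure.pi fun _ : Fin n => volume.restrict (Arc η (1 / 2)))) := by
    refine Integrable.of_bound (C := (((X + 1) * Real.log (2 * X)) ^ s) ^ n) hmeas.aestronglyMeasurable
      (ae_of_all _ fun p => hB p.1 p.2)
  have hEi : Integrable (fun θ => ‖EQ s k F X η θ N‖ ^ (2 * m)) (GMs s k) := by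
    have h1 := hint.integral_prod_left
    refine Integrable.congr (f := fun θ => ‖∫ b : Fin n → ℝ, ∏ j, ff s k F X N θ (b j)
      ∂(Measure.pi fun _ : Fin n => volume.restrict (Arc η (1 / 2)))‖) h1.norm (ae_of_all _ fun θ => ?_)
    simp only
    rw [← EQ_pow, norm_pow, hn]
  have e1 : ∫⁻ θ, ENNReal.ofReal (‖EQ s k F X η θ N‖ ^ (2 * m)) ∂(GMs s k) =
      ‖∫ b : Fin n → ℝ, (∫ θ, ∏ j, ff s k F X N θ (b j) ∂(GMs s k))
        ∂(Measure.pi fun _ : Fin n => volume.restrict (Arc η (1 / 2)))‖ₑ := by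
    rw [← integral_integral_swap hint, ← ofReal_integral_eq_lintegral_ofReal hEi (ae_of_all _ fun θ => by positivity)]
    have h1 : ∫ θ, (∫ b : Fin n → ℝ, ∏ j, ff s k F X N θ (b j)
        ∂(Measure.pi fun _ : Fin n => volume.restrict (Arc η (1 / 2)))) ∂(GMs s k) =
        ((∫ θ, ‖EQ s k F X η θ N‖ ^ (2 * m) ∂(GMs s k) : ℝ) : ℂ) := by
      refine Eq.trans ?_ integral_complex_ofReal
      refine integral_congr_ae (ae_of_all _ fun θ => ?_)
      simp only
      rw [← EQ_pow, hn]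
      exact (EQ_norm_pow s k F X N η θ m).symm
    rw [h1, ← ofReal_norm, Complex.norm_real, Real.norm_eq_abs, abs_of_nonneg]
    exact integral_nonneg fun θ => by positivity
  rw [e1]
  refine (enorm_integral_le_lintegral_enorm _).trans ?_
  -- change of the set
  obtain ⟨A, hA⟩ : ∃ A : Set ℝ, A = Arc η (1 / 2) \ {-(1 / 2)} := ⟨_, rfl⟩
  have hAm : MeasurableSet A := by
    rw [hA]
    exact (measurableSet_Arc _ _).diff (measurableSet_singleton _)
  have hAr : volume.restrict (Arc η (1 / 2)) = volume.restrict A := by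
    rw [hA]
    exact (Measure.restrict_congr_set (sdiff_null_ae_eq_self (measure_singleton _))).symm
  have hA1 : ∀ b ∈ A, -(1 / 2) < b ∧ b ≤ 1 / 2 ∧ η ≤ |b| := by
    intro b hb
    rw [hA] at hb
    obtain ⟨⟨h1, h2⟩, h3⟩ := hb
    rw [abs_le] at h2
    exact ⟨lt_of_le_of_ne h2.1 (fun hh => h3 hh.symm), h2.2, h1⟩
  have hpi : (Measure.pi fun _ : Fin n => volume.restrict (Arc η (1 / 2))) =
      (volume : Measure (Fin n → ℝ)).restrict (Set.univ.pi fun _ => A) := by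
    rw [hAr, volume_pi, Measure.restrict_pi_pi]
  rw [hpi]
  have hAp : MeasurableSet (Set.univ.pi fun _ : Fin n => A) := MeasurableSet.univ_pi fun _ => hAm
  have hG : Measurable fun γ : Fin n → ℝ => ENNReal.ofReal ((∏ j, qq (γ j)) * GS n k X γ ^ s) := by
    refine ENNReal.measurable_ofReal.comp ((Finset.measurable_prod _ fun j _ => qq_measurable.comp
      (measurable_pi_apply j)).mul ((GS_continuous n k X).measurable.pow_const s))
  calc ∫⁻ b in Set.univ.pi fun _ : Fin n => A, ‖∫ θ, ∏ j, ff s k F X N θ (b j) ∂(GMs s k)‖ₑ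
      ≤ ∫⁻ b in Set.univ.pi fun _ : Fin n => A, ENNReal.ofReal (K ^ (2 * m * (s - 1)) * Real.log (2 * X) ^ (2 * m * s)) *
        ∑' h : Fin n → ℤ, ENNReal.ofReal ((∏ j, qq (b j + h j)) * GS n k X (fun j => b j + h j) ^ s) := by
        refine setLIntegral_mono' hAp fun b hb => ?_
        rw [← ofReal_norm]
        refine (ENNReal.ofReal_le_ofReal (norm_inner s k F X N h hX1 n b)).trans ?_
        rw [mul_pow, ENNReal.ofReal_mul (by positivity), ← pow_mul]
        have h2 := hKb s k X n b hs hX1 fun j => abs_le.2 ⟨(hA1 _ (hb j (Set.mem_univ j))).1.le,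
          (hA1 _ (hb j (Set.mem_univ j))).2.1⟩
        refine (mul_le_mul_right h2 _).trans (le_of_eq ?_)
        rw [← ENNReal.ofReal_pow hK.le, ← mul_assoc, ← ENNReal.ofReal_mul (by positivity),
          show n * (s - 1) = 2 * m * (s - 1) by rw [hn], show n * s = 2 * m * s by rw [hn], mul_comm (Real.log _ ^ _)]
    _ = ENNReal.ofReal (K ^ (2 * m * (s - 1)) * Real.log (2 * X) ^ (2 * m * s)) *
        ∑' h : Fin n → ℤ, ∫⁻ b in Set.univ.pi fun _ : Fin n => A,
          ENNReal.ofReal ((∏ j, qq (b j + h j)) * GS n k X (fun j => b j + h j) ^ s) := by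
        rw [lintegral_const_mul' _ _ ENNReal.ofReal_ne_top, lintegral_tsum]
        intro h
        refine (hG.comp (g := fun γ : Fin n → ℝ => ENNReal.ofReal ((∏ j, qq (γ j)) * GS n k X γ ^ s))
          (f := fun (b : Fin n → ℝ) j => b j + (h j : ℝ)) ?_).aemeasurable
        fun_prop
    _ ≤ _ := by
        subst hn
        refine mul_le_mul_right ?_ _
        exact unfold_le hAm hη hA1 (fun γ : Fin (2 * m) → ℝ => ENNReal.ofReal ((∏ j, qq (γ j)) * GS (2 * m) k X γ ^ s)) hG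

end Pool.Agent.N490.KV
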